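import Pool.Agent.helper19.FR.Spec

/-!
# Project FR (MP_bf63dc_nt), row MAI: the main part of the correlations
-/

set_option autoImplicit false

namespace Pool.Agent.FR

open Finset Real Pool.Agent.AT Pool.Agent.OM Pool.Agent.helper85.FC

theorem MAI_abs {α : Type} [Fintype α] (f : α → ℝ) : |mean f| ≤ mean fun x => |f x| := by
  unfold mean
  rw [abs_div, abs_of_nonneg (Nat.cast_nonneg (Fintype.card α) : (0 : ℝ) ≤ _)]
  exact div_le_div_of_nonneg_right (Finset.abs_sum_le_sum_abs _ _) (Nat.cast_nonneg _)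

theorem MAI_mono {α : Type} [Fintype α] (f g : α → ℝ) (h : ∀ x, f x ≤ g x) : mean f ≤ mean g := by
  unfold mean
  exact div_le_div_of_nonneg_right (Finset.sum_le_sum fun x _ => h x) (Nat.cast_nonneg _)

theorem MAI_add {α : Type} [Fintype α] (f g : α → ℝ) :
    mean (fun x => (f x + g x) / 2) = (mean f + mean g) / 2 := by
  unfold mean
  rw [← Finset.sum_div, Finset.sum_add_distrib]
  ring

theorem MAI_const {α : Type} [Fintype α] [Nonempty α] (c : ℝ) : mean (fun _ : α => c) = c := by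
  unfold mean
  have h : (Fintype.card α : ℝ) ≠ 0 := Nat.cast_ne_zero.2 Fintype.card_ne_zero
  rw [Finset.sum_const, Finset.card_univ, nsmul_eq_mul]
  field_simp

theorem MAI_comm {α β : Type} [Fintype α] [Fintype β] (f : α → β → ℝ) :
    mean (fun x => mean fun y => f x y) = mean (fun y => mean fun x => f x y) := by
  unfold mean
  rw [← Finset.sum_div, ← Finset.sum_div, Finset.sum_comm, div_div, div_div, mul_comm]

theorem MAI_marg {P : Type} [Fintype P] [DecidableEq P] {X : ℕ} (hX : 1 ≤ X) (p : P)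
    (g : Fin X → ℝ) : mean (fun ξ : P → Fin X => g (ξ p)) = mean g := by
  have hne : Nonempty (Fin X) := ⟨⟨0, hX⟩⟩
  unfold mean
  have h1 : ∑ ξ : P → Fin X, g (ξ p) = ∑ z : Fin X × ({q // q ≠ p} → Fin X), g z.1 :=
    Fintype.sum_equiv (Equiv.funSplitAt p (Fin X)) _ _ (fun ξ => rfl)
  have h2 : Fintype.card (P → Fin X) = Fintype.card (Fin X × ({q // q ≠ p} → Fin X)) :=
    Fintype.card_congr (Equiv.funSplitAt p (Fin X))
  rw [h1, h2, Fintype.sum_prod_type, Fintype.card_prod]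
  simp only [Finset.sum_const, Finset.card_univ, nsmul_eq_mul]
  rw [← Finset.mul_sum]
  have h3 : (Fintype.card ({q // q ≠ p} → Fin X) : ℝ) ≠ 0 := Nat.cast_ne_zero.2 Fintype.card_ne_zero
  have h4 : (Fintype.card (Fin X) : ℝ) ≠ 0 := Nat.cast_ne_zero.2 Fintype.card_ne_zero
  push_cast
  field_simp

theorem MAI : MAI_stmt := by
  intro ι _ _ H X j i i' e f hH hX hj _ he hf
  have hne : Nonempty (Fin X) := ⟨⟨0, hX⟩⟩
  have hneH : Nonempty (Fin H) := ⟨⟨0, hH⟩⟩
  unfold corr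
  have key : ∀ (ξ : ι × Fin H → Fin X) (m m' : Fin H),
      |j ξ (i, m) * j ξ (i', m') * (e (ξ (i, m)) * f (ξ (i', m')))| ≤
        (e (ξ (i, m)) ^ 2 + f (ξ (i', m')) ^ 2) / 2 := by
    intro ξ m m'
    obtain ⟨a0, a1⟩ := hj ξ (i, m)
    obtain ⟨b0, b1⟩ := hj ξ (i', m')
    rw [abs_mul, abs_of_nonneg (mul_nonneg a0 b0), abs_mul]
    have h1 : j ξ (i, m) * j ξ (i', m') ≤ 1 := mul_le_one₀ a1 b0 b1
    have h2 : 0 ≤ |e (ξ (i, m))| * |f (ξ (i', m'))| := mul_nonneg (abs_nonneg _) (abs_nonneg _)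
    have h3 : |e (ξ (i, m))| * |f (ξ (i', m'))| ≤ (e (ξ (i, m)) ^ 2 + f (ξ (i', m')) ^ 2) / 2 := by
      have h4 := sq_nonneg (|e (ξ (i, m))| - |f (ξ (i', m'))|)
      have h5 := sq_abs (e (ξ (i, m)))
      have h6 := sq_abs (f (ξ (i', m')))
      nlinarith
    calc j ξ (i, m) * j ξ (i', m') * (|e (ξ (i, m))| * |f (ξ (i', m'))|) ≤
        1 * (|e (ξ (i, m))| * |f (ξ (i', m'))|) := mul_le_mul_of_nonneg_right h1 h2
      _ ≤ _ := by rw [one_mul]; exact h3
  have h1 : |mean fun ξ : ι × Fin H → Fin X => mean fun m : Fin H => mean fun m' : Fin H =>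
      j ξ (i, m) * j ξ (i', m') * (e (ξ (i, m)) * f (ξ (i', m')))| ≤
      mean fun ξ : ι × Fin H → Fin X => mean fun m : Fin H => mean fun m' : Fin H =>
        (e (ξ (i, m)) ^ 2 + f (ξ (i', m')) ^ 2) / 2 :=
    (MAI_abs _).trans (MAI_mono _ _ fun ξ => (MAI_abs _).trans (MAI_mono _ _ fun m =>
      (MAI_abs _).trans (MAI_mono _ _ fun m' => key ξ m m')))
  refine h1.trans ?_
  have h2 : ∀ (ξ : ι × Fin H → Fin X) (m : Fin H),
      (mean fun m' : Fin H => (e (ξ (i, m)) ^ 2 + f (ξ (i', m')) ^ 2) / 2) =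
        (e (ξ (i, m)) ^ 2 + mean fun m' : Fin H => f (ξ (i', m')) ^ 2) / 2 := by
    intro ξ m
    rw [MAI_add (fun _ : Fin H => e (ξ (i, m)) ^ 2) (fun m' : Fin H => f (ξ (i', m')) ^ 2), MAI_const]
  have h3 : ∀ ξ : ι × Fin H → Fin X,
      (mean fun m : Fin H => mean fun m' : Fin H => (e (ξ (i, m)) ^ 2 + f (ξ (i', m')) ^ 2) / 2) =
        ((mean fun m : Fin H => e (ξ (i, m)) ^ 2) + mean fun m' : Fin H => f (ξ (i', m')) ^ 2) / 2 := by
    intro ξ
    simp only [h2]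
    rw [MAI_add (fun m : Fin H => e (ξ (i, m)) ^ 2)
      (fun _ : Fin H => mean fun m' : Fin H => f (ξ (i', m')) ^ 2), MAI_const]
  simp only [h3]
  rw [MAI_add (fun ξ : ι × Fin H → Fin X => mean fun m : Fin H => e (ξ (i, m)) ^ 2)
    (fun ξ : ι × Fin H → Fin X => mean fun m' : Fin H => f (ξ (i', m')) ^ 2),
    MAI_comm (fun (ξ : ι × Fin H → Fin X) (m : Fin H) => e (ξ (i, m)) ^ 2),
    MAI_comm (fun (ξ : ι × Fin H → Fin X) (m' : Fin H) => f (ξ (i', m')) ^ 2)]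
  have h4 : ∀ m : Fin H, (mean fun ξ : ι × Fin H → Fin X => e (ξ (i, m)) ^ 2) =
      mean fun x => e x ^ 2 := fun m => MAI_marg hX (i, m) (fun x => e x ^ 2)
  have h5 : ∀ m' : Fin H, (mean fun ξ : ι × Fin H → Fin X => f (ξ (i', m')) ^ 2) =
      mean fun x => f x ^ 2 := fun m' => MAI_marg hX (i', m') (fun x => f x ^ 2)
  simp only [h4, h5]
  rw [MAI_const, MAI_const]
  linarith

end Pool.Agent.FR
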